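import Pool.Agent.Helper13.RG.Stmts

/-!
# EXB: extension of embeddings
-/

set_option autoImplicit false

open scoped Classical

namespace Pool.Agent.Helper13.RG

open Pool.Agent.Helper14.BSC Pool.Agent.Helper13.ZL

theorem st_EXB : ST_EXB := by
  intro k k₁ _ _ _ j p _ σ
  haveI : CharZero k := by
    constructor
    intro a b h
    have h2 : j (a : k) = j (b : k) := by rw [h]
    rw [map_natCast, map_natCast] at h2
    exact_mod_cast h2
  letI : Algebra k k₁ := j.toAlgebra
  letI : Algebra k ℂ_[p] := σ.toAlgebra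
  haveI : IsScalarTower ℚ k k₁ := IsScalarTower.of_algebraMap_eq' (Subsingleton.elim _ _)
  haveI : Algebra.IsAlgebraic k k₁ := Algebra.IsAlgebraic.tower_top (K := ℚ) k
  let F : k₁ →ₐ[k] ℂ_[p] := IsAlgClosed.lift
  exact ⟨F.toRingHom, fun c => F.commutes c⟩

end Pool.Agent.Helper13.RG
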