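import Pool.Agent.Helper13.RG.Stmts

/-!
# TCV: congruent classes at a nonnull set of places give congruent values at a nonnull set
-/

set_option autoImplicit false

open scoped Classical

namespace Pool.Agent.Helper13.RG

open Pool.Agent.Helper14.BSC Pool.Agent.Helper13.ZL

theorem st_TCV (hN : ST_NUL) (hC : ST_COE) (hV : ST_VEMB) (hP : ST_PEX) (hD : ST_DLIB) :
    ST_TCV := by
  intro k Ω _ _ _ _ _ D D' hD1 hD2 x y hx hy hCE hCV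
  obtain ⟨hmono, hun, _, _⟩ := hD k
  have n1 : Null (NUV D x) := (hN k Ω D hD1).2.2.2 x hx
  have n2 : Null (NUV D' y) := (hN k Ω D' hD2).2.2.2 y hy
  apply hCE
  refine hmono _ _ ?_ (hun _ _ (hun _ _ hCV n1) n2)
  intro v hv
  by_contra hcon
  simp only [Set.mem_union, not_or] at hcon
  obtain ⟨⟨hc, hu⟩, hu'⟩ := hcon
  obtain ⟨p, hp, σ, _, hov, _, _⟩ := hV k v
  obtain ⟨P⟩ := hP k Ω D p σ
  obtain ⟨P'⟩ := hP k Ω D' p σ
  have a1 : ∃ h : x ∈ P.C, ‖P.φ ⟨x, h⟩‖ = 1 := by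
    by_contra h
    exact hu ⟨p, hp, σ, P, hov, h⟩
  have a2 : ∃ h : y ∈ P'.C, ‖P'.φ ⟨y, h⟩‖ = 1 := by
    by_contra h
    exact hu' ⟨p, hp, σ, P', hov, h⟩
  obtain ⟨hxC, hx1⟩ := a1
  obtain ⟨hyC, hy1⟩ := a2
  exact hc ⟨p, hp, σ, P, P', hxC, hyC, hov, hC k Ω D D' v p σ P P' hov ⟨x, hxC⟩ ⟨y, hyC⟩ hx1 hy1 hv⟩

end Pool.Agent.Helper13.RG
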