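import Pool.Agent.Helper13.RG.Stmts

/-!
# RIGD: rigidity for nongeometric sections
-/

set_option autoImplicit false

open scoped Classical

namespace Pool.Agent.Helper13.RG

open Pool.Agent.Helper14.BSC Pool.Agent.Helper13.ZL

theorem st_RIGD (hA : ST_EQA) (hB : ST_EQB) (hX : ST_EXI) (hS : ST_SYM) (hI : ST_ISO)
    (hC : ST_CNJ) : ST_RIGD := by
  intro k Ω _ _ _ _ _ D D' hN hN' hal hal' hG hG' R hR hRR
  have hall : ∀ r ∈ R, AllSame D D' r.1 r.2 := by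
    intro r hr
    obtain ⟨h1, h2, h3⟩ := hRR r hr
    exact hB k Ω D D' r.1 r.2 (hA k Ω D D' hN hN' r.1 r.2 h1 h2 h3)
  obtain ⟨r0, hr0⟩ := hR
  obtain ⟨n1, n2, _⟩ := hRR r0 hr0
  have e1 : ∀ x : LL D, ∃ y : LL D', AllSame D D' x y := fun x =>
    hX k Ω D D' hN hN' r0.1 r0.2 n1 n2 (hall r0 hr0) x (hG r0.1 x n1)
  have e2 : ∀ y : LL D', ∃ x : LL D, AllSame D' D y x := fun y =>
    hX k Ω D' D hN' hN r0.2 r0.1 n2 n1 (hS k Ω D D' _ _ (hall r0 hr0)) y (hG' r0.2 y n2)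
  obtain ⟨ψ, hψ⟩ := hI k Ω D D' hN hN' e1 e2
  obtain ⟨γ, g1, g2, g3⟩ := hC k Ω D D' hal hal' ψ
  refine ⟨γ, g1, ?_, g3⟩
  intro r hr
  rw [g2 r.1, hψ r.1 r.2 (hall r hr)]

end Pool.Agent.Helper13.RG
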